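import Mathlib

/-!
Counting: in a graph with positive edge density some `K_{s,s}` avoids a sparse family of larger
sets of vertices.
-/

set_option autoImplicit false

namespace Pool.Agent.W278.Sparse

open Finset

variable {V : Type*} [Fintype V] [DecidableEq V]

/-- functions with prescribed values on a set of positions -/
theorem card_prescribed {ι : Type*} [Fintype ι] [DecidableEq ι] (P : Finset ι) (g : ι → V) :
    (univ.filter (fun c : ι → V => ∀ l ∈ P, c l = g l)).card =
      Fintype.card V ^ (Fintype.card ι - P.card) := by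
  have h : (univ.filter (fun c : ι → V => ∀ l ∈ P, c l = g l)) =
      Fintype.piFinset (fun l => if l ∈ P then {g l} else univ) := by
    ext c
    simp only [mem_filter, mem_univ, true_and, Fintype.mem_piFinset]
    refine forall_congr' fun l => ?_
    by_cases hl : l ∈ P <;> simp [hl]
  rw [h, Fintype.card_piFinset]
  have : ∀ l, (if l ∈ P then ({g l} : Finset V) else univ).card =
      if l ∈ P then 1 else Fintype.card V := by
    intro l
    split_ifs <;> simp [card_univ]
  rw [Finset.prod_congr rfl (fun l _ => this l), Finset.prod_ite, prod_const_one, one_mul,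
    prod_const]
  congr 1
  have : (univ.filter (fun l => l ∉ P)) = Pᶜ := by
    ext l; simp
  rw [this, card_compl]

theorem card_equal {ι : Type*} [Fintype ι] [DecidableEq ι] (i j : ι) (hij : i ≠ j) :
    (univ.filter (fun c : ι → V => c i = c j)).card ≤
      Fintype.card V ^ (Fintype.card ι - 2) * Fintype.card V := by
  have h : (univ.filter (fun c : ι → V => c i = c j)) ⊆
      univ.biUnion (fun x : V => univ.filter (fun c : ι → V => ∀ l ∈ ({i, j} : Finset ι),
        c l = (fun _ => x) l)) := by
    intro c hc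
    simp only [mem_filter, mem_univ, true_and] at hc
    simp only [mem_biUnion, mem_univ, true_and, mem_filter]
    refine ⟨c i, fun l hl => ?_⟩
    simp only [mem_insert, mem_singleton] at hl
    rcases hl with rfl | rfl
    · rfl
    · exact hc.symm
  refine (card_le_card h).trans (card_biUnion_le.trans ?_)
  rw [Finset.sum_congr rfl (fun x _ => card_prescribed ({i, j} : Finset ι) (fun _ => x)),
    card_pair hij, sum_const, card_univ, smul_eq_mul, mul_comm]

omit [DecidableEq V] in
/-- the homomorphism count -/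
theorem hom_count (s : ℕ) (hs : 0 < s) (H : V → V → Prop) [DecidableRel H] (p : ℝ) (hp : 0 ≤ p)
    (hH : p * (Fintype.card V : ℝ) ^ 2 ≤
      ∑ y : V, ((univ.filter (fun x => H x y)).card : ℝ)) :
    p ^ (s * s) * (Fintype.card V : ℝ) ^ (2 * s) ≤
      ((univ.filter (fun c : (Fin s → V) × (Fin s → V) => ∀ i j, H (c.1 i) (c.2 j))).card : ℝ) := by
  classical
  rcases isEmpty_or_nonempty V with hV | hV
  · have : (Fintype.card V : ℝ) = 0 := by simp
    rw [this, zero_pow (by omega), mul_zero]
    positivity
  obtain ⟨k, rfl⟩ : ∃ k, s = k + 1 := ⟨s - 1, by omega⟩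
  set N : ℝ := (Fintype.card V : ℝ) with hN
  have hNpos : 0 < N := by rw [hN]; exact_mod_cast Fintype.card_pos
  -- N(a)
  let nb : (Fin (k+1) → V) → ℝ := fun a =>
    ((univ.filter (fun y : V => ∀ i, H (a i) y)).card : ℝ)
  have h1 : ((univ.filter (fun c : (Fin (k+1) → V) × (Fin (k+1) → V) =>
      ∀ i j, H (c.1 i) (c.2 j))).card : ℝ) = ∑ a : Fin (k+1) → V, nb a ^ (k+1) := by
    have h2 : (univ.filter (fun c : (Fin (k+1) → V) × (Fin (k+1) → V) =>
        ∀ i j, H (c.1 i) (c.2 j))).card = ∑ a : Fin (k+1) → V,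
        (univ.filter (fun b : Fin (k+1) → V => ∀ i j, H (a i) (b j))).card := by
      rw [← Finset.univ_product_univ, card_filter, Finset.sum_product]
      refine Finset.sum_congr rfl fun a _ => ?_
      rw [card_filter]
    rw [h2]
    push_cast
    refine Finset.sum_congr rfl fun a _ => ?_
    have h3 : (univ.filter (fun b : Fin (k+1) → V => ∀ i j, H (a i) (b j))) =
        Fintype.piFinset (fun _ : Fin (k+1) => univ.filter (fun y : V => ∀ i, H (a i) y)) := by
      ext b
      simp only [mem_filter, mem_univ, true_and, Fintype.mem_piFinset]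
      exact forall_comm
    rw [h3, Fintype.card_piFinset, prod_const, card_univ, Fintype.card_fin]
    push_cast
    rfl
  have h4 : ∑ a : Fin (k+1) → V, nb a =
      ∑ y : V, ((univ.filter (fun x => H x y)).card : ℝ) ^ (k+1) := by
    have h5 : ∑ a : Fin (k+1) → V, (univ.filter (fun y : V => ∀ i, H (a i) y)).card =
        ∑ y : V, (univ.filter (fun x => H x y)).card ^ (k+1) := by
      simp_rw [card_filter]
      rw [Finset.sum_comm]
      refine Finset.sum_congr rfl fun y _ => ?_
      rw [← card_filter, ← card_filter]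
      have h3 : (univ.filter (fun a : Fin (k+1) → V => ∀ i, H (a i) y)) =
          Fintype.piFinset (fun _ : Fin (k+1) => univ.filter (fun x : V => H x y)) := by
        ext b
        simp only [mem_filter, mem_univ, true_and, Fintype.mem_piFinset]
      rw [h3, Fintype.card_piFinset, prod_const, card_univ, Fintype.card_fin]
    simp only [nb]
    exact_mod_cast h5
  rw [h1]
  have h6 : p ^ (k+1) * N ^ (k+2) ≤ ∑ a : Fin (k+1) → V, nb a := by
    rw [h4]
    have := pow_sum_div_card_le_sum_pow (s := (univ : Finset V))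
      (f := fun y => ((univ.filter (fun x => H x y)).card : ℝ)) (fun _ _ => by positivity) k
    refine le_trans ?_ this
    rw [card_univ, ← hN, le_div_iff₀ (by positivity)]
    calc p ^ (k+1) * N ^ (k+2) * N ^ k = (p * N ^ 2) ^ (k+1) := by ring
      _ ≤ _ := by
        apply pow_le_pow_left₀ (by positivity) hH
  have h7 := pow_sum_div_card_le_sum_pow (s := (univ : Finset (Fin (k+1) → V)))
      (f := nb) (fun _ _ => by positivity) k
  refine le_trans ?_ h7
  rw [card_univ, Fintype.card_fun, Fintype.card_fin]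
  push_cast
  rw [← hN, le_div_iff₀ (by positivity)]
  calc p ^ ((k+1) * (k+1)) * N ^ (2 * (k+1)) * (N ^ (k+1)) ^ k
      = (p ^ (k+1) * N ^ (k+2)) ^ (k+1) := by
        rw [mul_pow, ← pow_mul, ← pow_mul, ← pow_mul, mul_assoc, ← pow_add]
        congr 2
        ring
    _ ≤ _ := by
        apply pow_le_pow_left₀ (by positivity) h6

/-- In a graph with at least `p N² / 2` edges, if `T` is a family of at most about
`p ^ (s²) N³ / (8 s³)` sets with at least three elements, some `K_{s,s}` contains no member of
`T`. -/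
theorem exists_pair (s : ℕ) (hs : 2 ≤ s) (H : V → V → Prop) [DecidableRel H]
    (p : ℝ) (hp : 0 ≤ p) (hH : p * (Fintype.card V : ℝ) ^ 2 ≤
      ∑ y : V, ((univ.filter (fun x => H x y)).card : ℝ))
    (T : Finset (Finset V)) (hT : ∀ S ∈ T, 3 ≤ S.card)
    (hbig : (s : ℝ) ^ 2 * (Fintype.card V : ℝ) ^ 2 + 8 * (s : ℝ) ^ 3 * T.card <
      p ^ (s * s) * (Fintype.card V : ℝ) ^ 3) :
    ∃ a b : Fin s → V, Function.Injective a ∧ Function.Injective b ∧ (∀ i j, H (a i) (b j)) ∧
      ∀ S ∈ T, ∃ x ∈ S, x ∉ Set.range a ∧ x ∉ Set.range b := by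
  classical
  by_contra hcon
  push Not at hcon
  set N : ℝ := (Fintype.card V : ℝ) with hN
  have hN0 : 0 ≤ N := by positivity
  have hne : Nonempty V := by
    by_contra hV
    rw [not_nonempty_iff] at hV
    have : N = 0 := by rw [hN]; simp
    rw [this] at hbig
    have h0 : (0 : ℝ) ≤ 8 * (s : ℝ) ^ 3 * T.card := by positivity
    simp at hbig
    linarith
  -- the family of all tuples
  let ι := Fin s ⊕ Fin s
  have hcι : Fintype.card ι = 2 * s := by simp [ι]; ring
  have h1 : ∀ S ∈ T, ∃ x y z : V, x ∈ S ∧ y ∈ S ∧ z ∈ S ∧ x ≠ y ∧ x ≠ z ∧ y ≠ z := by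
    intro S hS
    obtain ⟨t, htS, ht⟩ := Finset.exists_subset_card_eq (hT S hS)
    rw [Finset.card_eq_three] at ht
    obtain ⟨x, y, z, hxy, hxz, hyz, rfl⟩ := ht
    exact ⟨x, y, z, htS (by simp), htS (by simp), htS (by simp), hxy, hxz, hyz⟩
  choose! X Y Z hX hY hZ hXY hXZ hYZ using h1
  let bad1 : Finset (ι → V) := ((univ : Finset (Fin s × Fin s)).filter (fun q => q.1 < q.2)).biUnion
    (fun q => univ.filter (fun c : ι → V => c (Sum.inl q.1) = c (Sum.inl q.2)))
  let bad2 : Finset (ι → V) := ((univ : Finset (Fin s × Fin s)).filter (fun q => q.1 < q.2)).biUnion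
    (fun q => univ.filter (fun c : ι → V => c (Sum.inr q.1) = c (Sum.inr q.2)))
  let bad3 : Finset (ι → V) := (T ×ˢ (univ : Finset (ι × ι × ι)).filter
      (fun q => q.1 ≠ q.2.1 ∧ q.1 ≠ q.2.2 ∧ q.2.1 ≠ q.2.2)).biUnion
    (fun q => univ.filter (fun c : ι → V => ∀ l ∈ ({q.2.1, q.2.2.1, q.2.2.2} : Finset ι),
      c l = (fun l => if l = q.2.1 then X q.1 else if l = q.2.2.1 then Y q.1 else Z q.1) l))
  let good : Finset (ι → V) := univ.filter (fun c => ∀ i j, H (c (Sum.inl i)) (c (Sum.inr j)))
  have hsub : good ⊆ (bad1 ∪ bad2) ∪ bad3 := by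
    intro c hc
    simp only [good, mem_filter, mem_univ, true_and] at hc
    by_cases hi1 : Function.Injective (fun i => c (Sum.inl i))
    · by_cases hi2 : Function.Injective (fun i => c (Sum.inr i))
      · obtain ⟨S, hS, hSall⟩ := hcon _ _ hi1 hi2 hc
        apply mem_union_right
        have hpos : ∀ x ∈ S, ∃ l : ι, c l = x := by
          intro x hx
          by_cases hxa : x ∈ Set.range (fun i => c (Sum.inl i))
          · obtain ⟨i, hi⟩ := hxa
            exact ⟨Sum.inl i, hi⟩
          · obtain ⟨i, hi⟩ := hSall x hx hxa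
            exact ⟨Sum.inr i, hi⟩
        obtain ⟨l1, hl1⟩ := hpos _ (hX S hS)
        obtain ⟨l2, hl2⟩ := hpos _ (hY S hS)
        obtain ⟨l3, hl3⟩ := hpos _ (hZ S hS)
        have n12 : l1 ≠ l2 := by
          rintro rfl; exact hXY S hS (hl1.symm.trans hl2)
        have n13 : l1 ≠ l3 := by
          rintro rfl; exact hXZ S hS (hl1.symm.trans hl3)
        have n23 : l2 ≠ l3 := by
          rintro rfl; exact hYZ S hS (hl2.symm.trans hl3)
        simp only [bad3, mem_biUnion, mem_product, mem_filter, mem_univ, true_and]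
        refine ⟨(S, l1, l2, l3), ⟨hS, n12, n13, n23⟩, ?_⟩
        intro l hl
        simp only [mem_insert, mem_singleton] at hl
        rcases hl with rfl | rfl | rfl
        · simp [hl1]
        · simp [hl2, n12.symm]
        · simp [hl3, n13.symm, n23.symm]
      · apply mem_union_left
        apply mem_union_right
        simp only [Function.Injective, not_forall] at hi2
        obtain ⟨i, j, hij, hne⟩ := hi2
        simp only [bad2, mem_biUnion, mem_filter, mem_univ, true_and]
        rcases lt_or_gt_of_ne hne with h | h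
        · exact ⟨(i, j), h, hij⟩
        · exact ⟨(j, i), h, hij.symm⟩
    · apply mem_union_left
      apply mem_union_left
      simp only [Function.Injective, not_forall] at hi1
      obtain ⟨i, j, hij, hne⟩ := hi1
      simp only [bad1, mem_biUnion, mem_filter, mem_univ, true_and]
      rcases lt_or_gt_of_ne hne with h | h
      · exact ⟨(i, j), h, hij⟩
      · exact ⟨(j, i), h, hij.symm⟩
  -- number of pairs of positions
  have hq : ((univ : Finset (Fin s × Fin s)).filter (fun q => q.1 < q.2)).card * 2 ≤ s * s := by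
    have h2 : ((univ : Finset (Fin s × Fin s)).filter (fun q => q.1 < q.2)).card =
        ((univ : Finset (Fin s × Fin s)).filter (fun q => q.2 < q.1)).card := by
      refine Finset.card_bij (fun q _ => (q.2, q.1)) ?_ ?_ ?_
      · intro q hq
        simpa using hq
      · rintro ⟨a, b⟩ _ ⟨a', b'⟩ _ h
        simp only [Prod.mk.injEq] at h
        simp [h.1, h.2]
      · rintro ⟨a, b⟩ hq
        exact ⟨(b, a), by simpa using hq, rfl⟩
    have h3 : Disjoint ((univ : Finset (Fin s × Fin s)).filter (fun q => q.1 < q.2))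
        ((univ : Finset (Fin s × Fin s)).filter (fun q => q.2 < q.1)) := by
      rw [Finset.disjoint_filter]
      intro q _ h4 h5
      exact lt_asymm h4 h5
    have h4 := card_union_of_disjoint h3
    have h5 := Finset.card_le_univ (((univ : Finset (Fin s × Fin s)).filter (fun q => q.1 < q.2)) ∪
        ((univ : Finset (Fin s × Fin s)).filter (fun q => q.2 < q.1)))
    rw [Fintype.card_prod, Fintype.card_fin] at h5
    omega
  have hb1 : bad1.card ≤ ((univ : Finset (Fin s × Fin s)).filter (fun q => q.1 < q.2)).card *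
      Fintype.card V ^ (2 * s - 1) := by
    refine card_biUnion_le.trans ?_
    refine (Finset.sum_le_card_nsmul _ _ (Fintype.card V ^ (2 * s - 1)) ?_).trans (by simp)
    intro q hq
    simp only [mem_filter, mem_univ, true_and] at hq
    refine (card_equal (Sum.inl q.1 : ι) (Sum.inl q.2) (fun h => hq.ne (Sum.inl.inj h))).trans ?_
    rw [hcι, ← pow_succ]
    exact le_of_eq (by congr 1; omega)
  have hb2 : bad2.card ≤ ((univ : Finset (Fin s × Fin s)).filter (fun q => q.1 < q.2)).card *
      Fintype.card V ^ (2 * s - 1) := by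
    refine card_biUnion_le.trans ?_
    refine (Finset.sum_le_card_nsmul _ _ (Fintype.card V ^ (2 * s - 1)) ?_).trans (by simp)
    intro q hq
    simp only [mem_filter, mem_univ, true_and] at hq
    refine (card_equal (Sum.inr q.1 : ι) (Sum.inr q.2) (fun h => hq.ne (Sum.inr.inj h))).trans ?_
    rw [hcι, ← pow_succ]
    exact le_of_eq (by congr 1; omega)
  have hb3 : bad3.card ≤ (T.card * (2 * s) ^ 3) * Fintype.card V ^ (2 * s - 3) := by
    refine card_biUnion_le.trans ?_
    refine (Finset.sum_le_card_nsmul _ _ (Fintype.card V ^ (2 * s - 3)) ?_).trans ?_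
    · intro q hq
      simp only [mem_filter, mem_univ, true_and, mem_product] at hq
      rw [card_prescribed, hcι, Finset.card_eq_three.mpr
        ⟨q.2.1, q.2.2.1, q.2.2.2, hq.2.1, hq.2.2.1, hq.2.2.2, rfl⟩]
    · rw [smul_eq_mul, card_product]
      refine Nat.mul_le_mul_right _ (Nat.mul_le_mul_left _ ?_)
      refine (card_filter_le _ _).trans ?_
      rw [card_univ, Fintype.card_prod, Fintype.card_prod, hcι]
      exact le_of_eq (by ring)
  have hgood := hom_count s (by omega) H p hp hH
  have hgc : (univ.filter (fun c : (Fin s → V) × (Fin s → V) => ∀ i j, H (c.1 i) (c.2 j))).card =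
      good.card := by
    refine Finset.card_bij (fun c _ => Sum.elim c.1 c.2) ?_ ?_ ?_
    · intro c hc
      simpa [good] using hc
    · rintro ⟨a, b⟩ _ ⟨a', b'⟩ _ h
      have h1 : a = a' := by funext i; exact congrFun h (Sum.inl i)
      have h2 : b = b' := by funext i; exact congrFun h (Sum.inr i)
      rw [h1, h2]
    · intro c hc
      refine ⟨(fun i => c (Sum.inl i), fun i => c (Sum.inr i)), ?_, ?_⟩
      · simpa [good] using hc
      · funext l
        rcases l with l | l <;> rfl
  rw [hgc, ← hN] at hgood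
  have htot : good.card ≤ bad1.card + bad2.card + bad3.card :=
    (card_le_card hsub).trans ((card_union_le _ _).trans
      (Nat.add_le_add_right (card_union_le _ _) _))
  have htot2 : good.card ≤ (s * s) * Fintype.card V ^ (2 * s - 1) +
      (T.card * (2 * s) ^ 3) * Fintype.card V ^ (2 * s - 3) := by
    nlinarith [Nat.zero_le (Fintype.card V ^ (2 * s - 1))]
  obtain ⟨k, rfl⟩ : ∃ k, s = k + 2 := ⟨s - 2, by omega⟩
  have e1 : 2 * (k + 2) - 1 = (2 * k + 1) + 2 := by omega
  have e2 : 2 * (k + 2) - 3 = 2 * k + 1 := by omega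
  have e3 : 2 * (k + 2) = (2 * k + 1) + 3 := by omega
  rw [e1, e2] at htot2
  have htot3 : (good.card : ℝ) ≤ ((k + 2 : ℕ) : ℝ) ^ 2 * N ^ ((2 * k + 1) + 2) +
      (T.card * (2 * ((k + 2 : ℕ) : ℝ)) ^ 3) * N ^ (2 * k + 1) := by
    rw [hN]
    have : (good.card : ℝ) ≤ (((k + 2) * (k + 2) * Fintype.card V ^ ((2 * k + 1) + 2) +
      (T.card * (2 * (k + 2)) ^ 3) * Fintype.card V ^ (2 * k + 1) : ℕ) : ℝ) := by
      exact_mod_cast htot2
    refine this.trans (le_of_eq ?_)
    push_cast
    ring
  have hNpos : 0 < N := by rw [hN]; exact_mod_cast Fintype.card_pos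
  have h9 : (p ^ ((k + 2) * (k + 2)) * N ^ 3) * N ^ (2 * k + 1) ≤
      (((k + 2 : ℕ) : ℝ) ^ 2 * N ^ 2 + 8 * ((k + 2 : ℕ) : ℝ) ^ 3 * T.card) * N ^ (2 * k + 1) := by
    calc (p ^ ((k + 2) * (k + 2)) * N ^ 3) * N ^ (2 * k + 1)
        = p ^ ((k + 2) * (k + 2)) * N ^ (2 * (k + 2)) := by rw [e3]; ring
      _ ≤ good.card := hgood
      _ ≤ _ := htot3
      _ = _ := by ring
  have h10 := le_of_mul_le_mul_right h9 (by positivity)
  linarith

end Pool.Agent.W278.Sparse
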