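import Mathlib
import Pool.Agent.H159R3.Lang.Line
import Pool.Agent.H952R2.Sextic.CommonZero
import Pool.Agent.W278.Sparse.Count

/-!
Joins of points on two disjoint coordinate subspaces.
-/

set_option autoImplicit false

namespace Pool.Agent.W278.Sparse

open MvPolynomial Pool.Agent.H159R3.Lang

universe u

/-- extension by zero along `a` -/
def ext {n s : ℕ} {M : Type*} [Semiring M] (a : Fin s → Fin (n + 1)) (x : Fin s → M) :
    Fin (n + 1) → M := fun v => ∑ i, if a i = v then x i else 0

theorem ext_apply {n s : ℕ} {M : Type*} [Semiring M] (a : Fin s → Fin (n + 1))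
    (ha : Function.Injective a) (x : Fin s → M) (i : Fin s) : ext a x (a i) = x i := by
  unfold ext
  rw [Finset.sum_eq_single i]
  · simp
  · intro j _ hj
    rw [if_neg (fun h => hj (ha h))]
  · simp

theorem ext_eq_zero {n s : ℕ} {M : Type*} [Semiring M] (a : Fin s → Fin (n + 1)) (x : Fin s → M)
    (v : Fin (n + 1)) (hv : v ∉ Set.range a) : ext a x v = 0 := by
  unfold ext
  apply Finset.sum_eq_zero
  intro i _
  rw [if_neg (fun h => hv ⟨i, h⟩)]

variable {K : Type u} [Field K] {n r : ℕ}

/-- a common zero of `r` forms on a coordinate subspace of dimension `r` -/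
theorem exists_zero_on (F : Fin r → MvPolynomial (Fin (n + 1)) K) (d : Fin r → ℕ)
    (hF : ∀ i, (F i).IsHomogeneous (d i)) (hd : ∀ i, 0 < d i)
    (M : Type*) [Field M] [IsAlgClosed M] [Algebra K M] (a : Fin (r + 1) → Fin (n + 1)) :
    ∃ x : Fin (r + 1) → M, x ≠ 0 ∧ ∀ i, aeval (ext a x) (F i) = 0 := by
  let ρ : Fin (n + 1) → MvPolynomial (Fin (r + 1)) M := fun v =>
    ∑ i, if a i = v then X i else 0
  let f : Fin r → MvPolynomial (Fin (r + 1)) M := fun i => aeval ρ (F i)
  have hf : ∀ (x : Fin (r + 1) → M) i, eval x (f i) = aeval (ext a x) (F i) := by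
    intro x i
    have h1 : eval x (f i) = ((aeval x : MvPolynomial (Fin (r + 1)) M →ₐ[M] M).restrictScalars K)
        (f i) := by
      rw [AlgHom.coe_restrictScalars']
      exact (congrFun (congrArg DFunLike.coe (coe_aeval_eq_eval x)) (f i)).symm
    rw [h1]
    simp only [f]
    rw [comp_aeval_apply]
    congr 2
    funext v
    simp only [ρ, map_sum, ext]
    refine Finset.sum_congr rfl fun j _ => ?_
    split_ifs
    · simp
    · simp
  obtain ⟨x, hx, hx2⟩ := Pool.Agent.H952R2.Sextic.exists_common_zero (K := M)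
    (ι := Fin (r + 1)) (κ := Fin r) (by simp) f (by
      intro i
      rw [hf]
      have h2 : (ext a (0 : Fin (r + 1) → M)) = (0 : M) • (0 : Fin (n + 1) → M) := by
        funext v
        simp [ext]
      rw [h2, aeval_smul_homog (hF i), zero_pow (hd i).ne', zero_mul])
  exact ⟨x, hx, fun i => by rw [← hf]; exact hx2 i⟩

/-- The join of two points on disjoint coordinate subspaces without crossing monomials. -/
theorem onLine_of_join (F : Fin r → MvPolynomial (Fin (n + 1)) K) (d : Fin r → ℕ)
    (hF : ∀ i, (F i).IsHomogeneous (d i)) (hd : ∀ i, 0 < d i)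
    (M : Type*) [Field M] [Algebra K M] {s : ℕ} (a b : Fin s → Fin (n + 1))
    (hab : ∀ i j, a i ≠ b j)
    (hcross : ∀ i, ∀ m ∈ (F i).support, (∀ v ∈ m.support, v ∈ Set.range a ∨ v ∈ Set.range b) →
      (∀ v ∈ m.support, v ∈ Set.range a) ∨ (∀ v ∈ m.support, v ∈ Set.range b))
    (x y : Fin s → M) (hx : ∀ i, aeval (ext a x) (F i) = 0)
    (hy : ∀ i, aeval (ext b y) (F i) = 0) : OnLine F (ext a x) (ext b y) := by
  intro i s t
  have hdisj : ∀ v, v ∈ Set.range a → v ∉ Set.range b := by
    rintro _ ⟨i, rfl⟩ ⟨j, hj⟩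
    exact hab i j hj.symm
  have key : aeval (s • ext a x + t • ext b y) (F i) =
      aeval (s • ext a x) (F i) + aeval (t • ext b y) (F i) := by
    rw [aeval_def, aeval_def, aeval_def, eval₂_eq, eval₂_eq, eval₂_eq, ← Finset.sum_add_distrib]
    refine Finset.sum_congr rfl fun m hm => ?_
    rw [← mul_add]
    congr 1
    have hm0 : ∃ v, v ∈ m.support := by
      have h1 := hF i (mem_support_iff.mp hm)
      by_contra h2
      push Not at h2
      have h3 : m = 0 := by
        ext v
        by_contra h4
        exact h2 v (Finsupp.mem_support_iff.mpr h4)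
      rw [h3] at h1
      simp at h1
      exact (hd i).ne h1
    by_cases hin : ∀ v ∈ m.support, v ∈ Set.range a ∨ v ∈ Set.range b
    · rcases hcross i m hm hin with h1 | h1
      · obtain ⟨v, hv⟩ := hm0
        have h2 : ∏ v ∈ m.support, (t • ext b y) v ^ m v = 0 := by
          refine Finset.prod_eq_zero hv ?_
          rw [Pi.smul_apply, ext_eq_zero b y v (hdisj v (h1 v hv)), smul_zero,
            zero_pow (Finsupp.mem_support_iff.mp hv)]
        rw [h2, add_zero]
        refine Finset.prod_congr rfl fun w hw => ?_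
        have h3 : (t • ext b y) w = 0 := by
          rw [Pi.smul_apply, ext_eq_zero b y w (hdisj w (h1 w hw)), smul_zero]
        rw [Pi.add_apply, h3, add_zero]
      · obtain ⟨v, hv⟩ := hm0
        have h0 : ∀ w ∈ m.support, ext a x w = 0 := by
          intro w hw
          exact ext_eq_zero a x w (fun h => hdisj w h (h1 w hw))
        have h2 : ∏ v ∈ m.support, (s • ext a x) v ^ m v = 0 := by
          refine Finset.prod_eq_zero hv ?_
          rw [Pi.smul_apply, h0 v hv, smul_zero, zero_pow (Finsupp.mem_support_iff.mp hv)]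
        rw [h2, zero_add]
        refine Finset.prod_congr rfl fun w hw => ?_
        have h3 : (s • ext a x) w = 0 := by
          rw [Pi.smul_apply, h0 w hw, smul_zero]
        rw [Pi.add_apply, h3, zero_add]
    · push Not at hin
      obtain ⟨v, hv, hva, hvb⟩ := hin
      have ha0 := ext_eq_zero a x v hva
      have hb0 := ext_eq_zero b y v hvb
      have hne := Finsupp.mem_support_iff.mp hv
      rw [Finset.prod_eq_zero hv, Finset.prod_eq_zero hv, Finset.prod_eq_zero hv, add_zero]
      · rw [Pi.smul_apply, hb0, smul_zero, zero_pow hne]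
      · rw [Pi.smul_apply, ha0, smul_zero, zero_pow hne]
      · rw [Pi.add_apply, Pi.smul_apply, Pi.smul_apply, ha0, hb0, smul_zero, smul_zero, add_zero,
          zero_pow hne]
  rw [key, aeval_smul_homog (hF i), aeval_smul_homog (hF i), hx, hy, mul_zero, mul_zero, add_zero]

end Pool.Agent.W278.Sparse
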