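import Mathlib
import Pool.Agent.W278.Sparse.Join

/-!
Varieties defined by forms with few two-variable monomials contain lines.
-/

set_option autoImplicit false

namespace Pool.Agent.W278.Sparse

open MvPolynomial Pool.Agent.H159R3.Lang Finset

universe u

variable {K : Type u} [Field K] {n r : ℕ}

open Classical in
/-- The sets `S` of variables with `lo ≤ |S| ≤ hi` such that some monomial occurring in one of
the forms `F i` involves exactly the variables in `S`. -/
noncomputable def supports (F : Fin r → MvPolynomial (Fin (n + 1)) K) (lo hi : ℕ) :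
    Finset (Finset (Fin (n + 1))) :=
  univ.filter (fun S => lo ≤ S.card ∧ S.card ≤ hi ∧ ∃ i, ∃ m ∈ (F i).support, m.support = S)

theorem conclude (F : Fin r → MvPolynomial (Fin (n + 1)) K) (d : Fin r → ℕ)
    (hF : ∀ i, (F i).IsHomogeneous (d i)) (hd : ∀ i, 0 < d i)
    (a b : Fin (r + 1) → Fin (n + 1)) (ha : Function.Injective a) (hb : Function.Injective b)
    (hab : ∀ i j, a i ≠ b j)
    (hcross : ∀ i, ∀ m ∈ (F i).support, (∀ v ∈ m.support, v ∈ Set.range a ∨ v ∈ Set.range b) →
      (∀ v ∈ m.support, v ∈ Set.range a) ∨ (∀ v ∈ m.support, v ∈ Set.range b)) :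
    ∃ (p q : Fin (n + 1) → AlgebraicClosure K) (j k : Fin (n + 1)),
      p j * q k - p k * q j ≠ 0 ∧ OnLine F p q := by
  obtain ⟨x, hx, hx2⟩ := exists_zero_on F d hF hd (AlgebraicClosure K) a
  obtain ⟨y, hy, hy2⟩ := exists_zero_on F d hF hd (AlgebraicClosure K) b
  obtain ⟨i, hi⟩ := Function.ne_iff.mp hx
  obtain ⟨j, hj⟩ := Function.ne_iff.mp hy
  refine ⟨ext a x, ext b y, a i, b j, ?_,
    onLine_of_join F d hF hd _ a b hab hcross x y hx2 hy2⟩
  have h1 : ext a x (b j) = 0 := ext_eq_zero a x _ (by rintro ⟨i, hi⟩; exact hab i j hi)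
  rw [ext_apply a ha, ext_apply b hb, h1, zero_mul, sub_zero]
  exact mul_ne_zero hi hj

/-- Case of positive density. -/
theorem line_of_density (hr : 1 ≤ r) (F : Fin r → MvPolynomial (Fin (n + 1)) K) (d : Fin r → ℕ)
    (hF : ∀ i, (F i).IsHomogeneous (d i)) (hd : ∀ i, 0 < d i) (p : ℝ) (hp : 0 ≤ p)
    (h2 : 2 * ((supports F 2 2).card : ℝ) + (n + 1) ≤ (1 - p) * (n + 1) ^ 2)
    (h3 : ((r : ℝ) + 1) ^ 2 * (n + 1) ^ 2 + 8 * ((r : ℝ) + 1) ^ 3 * (supports F 3 (2 * r + 2)).card
      < p ^ ((r + 1) ^ 2) * ((n : ℝ) + 1) ^ 3) :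
    ∃ (p q : Fin (n + 1) → AlgebraicClosure K) (j k : Fin (n + 1)),
      p j * q k - p k * q j ≠ 0 ∧ OnLine F p q := by
  classical
  let H : Fin (n + 1) → Fin (n + 1) → Prop := fun x y => x ≠ y ∧ ({x, y} : Finset _) ∉ supports F 2 2
  have hcount : p * (Fintype.card (Fin (n + 1)) : ℝ) ^ 2 ≤
      ∑ y : Fin (n + 1), ((univ.filter (fun x => H x y)).card : ℝ) := by
    have e1 : ∀ y : Fin (n + 1), (univ.filter (fun x => H x y)).card +
        (univ.filter (fun x => ¬ H x y)).card = n + 1 := by
      intro y
      rw [Finset.card_filter_add_card_filter_not, card_univ, Fintype.card_fin]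
    have e2 : ∑ y : Fin (n + 1), (univ.filter (fun x => ¬ H x y)).card ≤
        (n + 1) + 2 * (supports F 2 2).card := by
      have e3 : ∑ y : Fin (n + 1), (univ.filter (fun x => ¬ H x y)).card =
          ((univ : Finset (Fin (n + 1) × Fin (n + 1))).filter (fun q => ¬ H q.2 q.1)).card := by
        rw [card_filter, ← Finset.univ_product_univ, Finset.sum_product]
        refine Finset.sum_congr rfl fun y _ => ?_
        rw [card_filter]
      rw [e3]
      have e4 : ((univ : Finset (Fin (n + 1) × Fin (n + 1))).filter (fun q => ¬ H q.2 q.1)) ⊆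
          (univ : Finset (Fin (n + 1))).diag ∪ (supports F 2 2).biUnion (fun S => S.offDiag) := by
        rintro ⟨x, y⟩ hq
        simp only [H, mem_filter, mem_univ, true_and, not_and, not_not] at hq
        by_cases hxy : x = y
        · subst hxy
          simp
        · rw [mem_union]
          right
          rw [mem_biUnion]
          refine ⟨{y, x}, hq (fun h => hxy h.symm), ?_⟩
          rw [mem_offDiag]
          simp [hxy]
      refine (card_le_card e4).trans ((card_union_le _ _).trans ?_)
      rw [diag_card, card_univ, Fintype.card_fin]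
      refine Nat.add_le_add_left (card_biUnion_le.trans ?_) _
      refine (Finset.sum_le_card_nsmul _ _ 2 ?_).trans (by rw [smul_eq_mul, mul_comm])
      intro S hS
      simp only [supports, mem_filter, mem_univ, true_and] at hS
      have : S.card = 2 := by omega
      rw [offDiag_card, this]
    have e5 : ∑ y : Fin (n + 1), ((univ.filter (fun x => H x y)).card +
        (univ.filter (fun x => ¬ H x y)).card) = (n + 1) * (n + 1) := by
      rw [Finset.sum_congr rfl (fun y _ => e1 y), sum_const, card_univ, Fintype.card_fin,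
        smul_eq_mul]
    rw [sum_add_distrib] at e5
    have e6 : ((∑ y : Fin (n + 1), (univ.filter (fun x => H x y)).card : ℕ) : ℝ) +
        ((∑ y : Fin (n + 1), (univ.filter (fun x => ¬ H x y)).card : ℕ) : ℝ) =
        ((n : ℝ) + 1) * (n + 1) := by
      exact_mod_cast e5
    have e7 : ((∑ y : Fin (n + 1), (univ.filter (fun x => ¬ H x y)).card : ℕ) : ℝ) ≤
        (n + 1) + 2 * (supports F 2 2).card := by
      exact_mod_cast e2
    rw [Fintype.card_fin, ← Nat.cast_sum]
    push_cast
    push_cast at e6 e7
    nlinarith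
  obtain ⟨a, b, ha, hb, hH, hT⟩ := exists_pair (V := Fin (n + 1)) (r + 1) (by omega) H p hp hcount
    (supports F 3 (2 * r + 2)) (by
      intro S hS
      simp only [supports, mem_filter, mem_univ, true_and] at hS
      exact hS.1) (by
      rw [Fintype.card_fin, ← sq (r + 1)]
      push_cast
      exact h3)
  have hab : ∀ i j, a i ≠ b j := fun i j => (hH i j).1
  refine conclude F d hF hd a b ha hb hab ?_
  intro i m hm hin
  by_contra hcon
  push Not at hcon
  obtain ⟨⟨u, hu, hua⟩, ⟨v, hv, hvb⟩⟩ := hcon
  obtain ⟨j, hj⟩ := (hin u hu).resolve_left hua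
  obtain ⟨l, hl⟩ := (hin v hv).resolve_right hvb
  have huv : u ≠ v := by
    rintro rfl
    exact hvb ⟨j, hj⟩
  have hsub : ({v, u} : Finset _) ⊆ m.support := by
    intro w hw
    simp only [mem_insert, mem_singleton] at hw
    rcases hw with rfl | rfl <;> assumption
  have hcard : ({v, u} : Finset (Fin (n + 1))).card = 2 := card_pair huv.symm
  by_cases hm2 : m.support.card = 2
  · have heq : ({v, u} : Finset _) = m.support := by
      apply Finset.eq_of_subset_of_card_le hsub
      rw [hm2, hcard]
    have h4 := (hH l j).2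
    rw [hl, hj] at h4
    apply h4
    simp only [supports, mem_filter, mem_univ, true_and]
    exact ⟨hcard.ge, hcard.le, i, m, hm, heq.symm⟩
  · have hge : 2 ≤ m.support.card := by
      rw [← hcard]
      exact card_le_card hsub
    have hle : m.support.card ≤ 2 * r + 2 := by
      have h5 : m.support ⊆ univ.image a ∪ univ.image b := by
        intro w hw
        rw [mem_union, mem_image, mem_image]
        rcases hin w hw with ⟨i, hi⟩ | ⟨i, hi⟩
        · left; exact ⟨i, mem_univ _, hi⟩
        · right; exact ⟨i, mem_univ _, hi⟩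
      refine (card_le_card h5).trans ((card_union_le _ _).trans ?_)
      have h6 : (univ.image a).card ≤ r + 1 := card_image_le.trans (by simp)
      have h7 : (univ.image b).card ≤ r + 1 := card_image_le.trans (by simp)
      omega
    obtain ⟨w, hw, hwa, hwb⟩ := hT m.support (by
      simp only [supports, mem_filter, mem_univ, true_and]
      exact ⟨by omega, hle, i, m, hm, rfl⟩)
    rcases hin w hw with h | h
    · exact hwa h
    · exact hwb h

/-- Turán case. -/
theorem line_of_turan (F : Fin r → MvPolynomial (Fin (n + 1)) K) (d : Fin r → ℕ)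
    (hF : ∀ i, (F i).IsHomogeneous (d i)) (hd : ∀ i, 0 < d i)
    (h : 2 * (2 * r + 1) * (supports F 2 (2 * r + 2)).card + (2 * r + 1) * (n + 1) <
      (n + 1) ^ 2) :
    ∃ (p q : Fin (n + 1) → AlgebraicClosure K) (j k : Fin (n + 1)),
      p j * q k - p k * q j ≠ 0 ∧ OnLine F p q := by
  classical
  set T := supports F 2 (2 * r + 2) with hT
  have h1 : ∀ S ∈ T, ∃ x y : Fin (n + 1), x ∈ S ∧ y ∈ S ∧ x ≠ y := by
    intro S hS
    simp only [hT, supports, mem_filter, mem_univ, true_and] at hS
    obtain ⟨x, hx, y, hy, hxy⟩ := Finset.one_lt_card.mp (show 1 < S.card by omega)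
    exact ⟨x, y, hx, hy, hxy⟩
  choose! X Y hX hY hXY using h1
  let G : SimpleGraph (Fin (n + 1)) :=
    { Adj := fun x y => x ≠ y ∧ ∀ S ∈ T, s(x, y) ≠ s(X S, Y S)
      symm := ⟨fun x y hxy => ⟨hxy.1.symm, fun S hS => by rw [Sym2.eq_swap]; exact hxy.2 S hS⟩⟩
      loopless := ⟨fun x hx => hx.1 rfl⟩ }
  have hG : ¬ G.CliqueFree ((2 * r + 1) + 1) := by
    intro hcf
    have e1 := hcf.card_edgeFinset_le
    simp only at e1
    have e2 := SimpleGraph.mul_card_edgeFinset_turanGraph_le (n := Fintype.card (Fin (n + 1)))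
      (r := 2 * r + 1)
    rw [SimpleGraph.card_edgeFinset_turanGraph] at e2
    have e3 : 2 * (2 * r + 1) * G.edgeFinset.card ≤ (2 * r + 1 - 1) * (n + 1) ^ 2 := by
      refine le_trans (Nat.mul_le_mul_left _ e1) ?_
      rw [Fintype.card_fin] at e2
      rw [Fintype.card_fin]
      exact e2
    have e4 : Gᶜ.edgeFinset ⊆ T.image (fun S => s(X S, Y S)) := by
      intro e he
      induction e with
      | _ x y =>
        rw [SimpleGraph.mem_edgeFinset, SimpleGraph.mem_edgeSet, SimpleGraph.compl_adj] at he
        obtain ⟨hne, hadj⟩ := he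
        by_contra hcon
        apply hadj
        refine ⟨hne, fun S hS heq => hcon ?_⟩
        rw [mem_image]
        exact ⟨S, hS, heq.symm⟩
    have e5 : Gᶜ.edgeFinset.card ≤ T.card := (card_le_card e4).trans card_image_le
    have e6 : (n + 1).choose 2 ≤ G.edgeFinset.card + Gᶜ.edgeFinset.card := by
      have e61 : (⊤ : SimpleGraph (Fin (n + 1))).edgeFinset ⊆ G.edgeFinset ∪ Gᶜ.edgeFinset := by
        intro e he
        induction e with
        | _ x y =>
          rw [SimpleGraph.mem_edgeFinset, SimpleGraph.mem_edgeSet, SimpleGraph.top_adj] at he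
          rw [mem_union, SimpleGraph.mem_edgeFinset, SimpleGraph.mem_edgeSet,
            SimpleGraph.mem_edgeFinset, SimpleGraph.mem_edgeSet, SimpleGraph.compl_adj]
          by_cases hG : G.Adj x y
          · exact Or.inl hG
          · exact Or.inr ⟨he, hG⟩
      have e62 := SimpleGraph.card_edgeFinset_top_eq_card_choose_two (V := Fin (n + 1))
      rw [Fintype.card_fin] at e62
      rw [← e62]
      exact (card_le_card e61).trans (card_union_le _ _)
    have e7 : (n + 1).choose 2 * 2 = (n + 1) * n := by
      rw [Nat.choose_two_right, Nat.add_sub_cancel, Nat.div_mul_cancel]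
      rw [mul_comm]
      exact (Nat.even_mul_succ_self n).two_dvd
    have e8 : 2 * r + 1 - 1 = 2 * r := by omega
    rw [e8] at e3
    nlinarith
  unfold SimpleGraph.CliqueFree at hG
  push Not at hG
  obtain ⟨C, hC⟩ := hG
  have hCcard : C.card = (r + 1) + (r + 1) := by rw [hC.card_eq]; ring
  let e : Fin ((r + 1) + (r + 1)) ↪o Fin (n + 1) := C.orderEmbOfFin hCcard
  let a : Fin (r + 1) → Fin (n + 1) := fun i => e (Fin.castAdd (r + 1) i)
  let b : Fin (r + 1) → Fin (n + 1) := fun i => e (Fin.natAdd (r + 1) i)
  refine conclude F d hF hd a b ?_ ?_ ?_ ?_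
  · intro i j hij
    have := e.injective hij
    exact Fin.castAdd_injective _ _ this
  · intro i j hij
    have := e.injective hij
    exact Fin.natAdd_injective _ _ this
  · intro i j hij
    have := e.injective hij
    have h2 := congrArg Fin.val this
    simp at h2
    have := i.2
    omega
  · intro i m hm hin
    have hmC : m.support ⊆ C := by
      intro v hv
      rcases hin v hv with ⟨j, rfl⟩ | ⟨j, rfl⟩
      · exact C.orderEmbOfFin_mem hCcard _
      · exact C.orderEmbOfFin_mem hCcard _
    have hcard : m.support.card ≤ 1 := by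
      by_contra hcon
      have hmT : m.support ∈ T := by
        simp only [hT, supports, mem_filter, mem_univ, true_and]
        refine ⟨by omega, ?_, i, m, hm, rfl⟩
        have := card_le_card hmC
        omega
      have hadj := hC.isClique (hmC (hX _ hmT)) (hmC (hY _ hmT)) (hXY _ hmT)
      exact hadj.2 _ hmT rfl
    by_cases hempty : m.support = ∅
    · left
      rw [hempty]
      simp
    · obtain ⟨v, hv⟩ := Finset.nonempty_iff_ne_empty.mpr hempty
      have hall : ∀ w ∈ m.support, w = v := by
        intro w hw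
        exact Finset.card_le_one.mp hcard w hw v hv
      rcases hin v hv with h3 | h3
      · left
        intro w hw
        rw [hall w hw]
        exact h3
      · right
        intro w hw
        rw [hall w hw]
        exact h3

end Pool.Agent.W278.Sparse
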